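import Mathlib

set_option autoImplicit false

namespace Pool.Agent.Results.MP_0b5955_al.RadicalNotCentrallyEssential

open Polynomial

noncomputable section

/-- `z` is a central element of the (possibly nonunital) ring `R`. -/
def Central {R : Type*} [NonUnitalRing R] (z : R) : Prop := ∀ r : R, z * r = r * z

/-- A ring, possibly without identity, is centrally essential if it is commutative or if every
noncentral element `a` has a nonzero central multiple `a x` with `x` central and nonzero. -/
def CentrallyEssential (R : Type*) [NonUnitalRing R] : Prop :=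
  (∀ a b : R, a * b = b * a) ∨
    ∀ a : R, ¬ Central a → ∃ x y : R, Central x ∧ Central y ∧ x ≠ 0 ∧ y ≠ 0 ∧ a * x = y

/-- The Jacobson radical of `R`, regarded as a ring in its own right. -/
def jacobsonRing (R : Type*) [Ring R] : NonUnitalSubring R where
  carrier := {x | x ∈ Ring.jacobson R}
  zero_mem' := (Ring.jacobson R).zero_mem
  add_mem' := by
    intro x y hx hy
    have h1 : x ∈ Ring.jacobson R := hx
    have h2 : y ∈ Ring.jacobson R := hy
    exact (Ring.jacobson R).add_mem h1 h2
  neg_mem' := by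
    intro x hx
    have h : x ∈ Ring.jacobson R := hx
    exact (Ring.jacobson R).neg_mem h
  mul_mem' := by
    intro x y _ hy
    have h : y ∈ Ring.jacobson R := hy
    exact (Ring.jacobson R).mul_mem_left x h

/-- The example: `R = K[t] + K[t] a + K[t] b + K c` with `t` central, `a b = c`,
`b a = a a = b b = 0`, `t c = 0`, and all products with `c` of `a`, `b`, `c` zero. -/
@[ext] structure Ex (K : Type*) [Field K] where
  p : K[X]
  f : K[X]
  g : K[X]
  h : K

variable {K : Type*} [Field K]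

namespace Ex

instance : Zero (Ex K) := ⟨⟨0, 0, 0, 0⟩⟩
instance : One (Ex K) := ⟨⟨1, 0, 0, 0⟩⟩
instance : Add (Ex K) := ⟨fun x y => ⟨x.p + y.p, x.f + y.f, x.g + y.g, x.h + y.h⟩⟩
instance : Neg (Ex K) := ⟨fun x => ⟨-x.p, -x.f, -x.g, -x.h⟩⟩
instance : Sub (Ex K) := ⟨fun x y => ⟨x.p - y.p, x.f - y.f, x.g - y.g, x.h - y.h⟩⟩
instance : Mul (Ex K) := ⟨fun x y => ⟨x.p * y.p, x.p * y.f + x.f * y.p, x.p * y.g + x.g * y.p,
  x.p.eval 0 * y.h + x.h * y.p.eval 0 + x.f.eval 0 * y.g.eval 0⟩⟩

@[simp] theorem zero_p : (0 : Ex K).p = 0 := rfl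
@[simp] theorem zero_f : (0 : Ex K).f = 0 := rfl
@[simp] theorem zero_g : (0 : Ex K).g = 0 := rfl
@[simp] theorem zero_h : (0 : Ex K).h = 0 := rfl
@[simp] theorem one_p : (1 : Ex K).p = 1 := rfl
@[simp] theorem one_f : (1 : Ex K).f = 0 := rfl
@[simp] theorem one_g : (1 : Ex K).g = 0 := rfl
@[simp] theorem one_h : (1 : Ex K).h = 0 := rfl
@[simp] theorem add_p (x y : Ex K) : (x + y).p = x.p + y.p := rfl
@[simp] theorem add_f (x y : Ex K) : (x + y).f = x.f + y.f := rfl
@[simp] theorem add_g (x y : Ex K) : (x + y).g = x.g + y.g := rfl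
@[simp] theorem add_h (x y : Ex K) : (x + y).h = x.h + y.h := rfl
@[simp] theorem neg_p (x : Ex K) : (-x).p = -x.p := rfl
@[simp] theorem neg_f (x : Ex K) : (-x).f = -x.f := rfl
@[simp] theorem neg_g (x : Ex K) : (-x).g = -x.g := rfl
@[simp] theorem neg_h (x : Ex K) : (-x).h = -x.h := rfl
@[simp] theorem sub_p (x y : Ex K) : (x - y).p = x.p - y.p := rfl
@[simp] theorem sub_f (x y : Ex K) : (x - y).f = x.f - y.f := rfl
@[simp] theorem sub_g (x y : Ex K) : (x - y).g = x.g - y.g := rfl
@[simp] theorem sub_h (x y : Ex K) : (x - y).h = x.h - y.h := rfl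
@[simp] theorem mul_p (x y : Ex K) : (x * y).p = x.p * y.p := rfl
@[simp] theorem mul_f (x y : Ex K) : (x * y).f = x.p * y.f + x.f * y.p := rfl
@[simp] theorem mul_g (x y : Ex K) : (x * y).g = x.p * y.g + x.g * y.p := rfl
@[simp] theorem mul_h (x y : Ex K) : (x * y).h =
  x.p.eval 0 * y.h + x.h * y.p.eval 0 + x.f.eval 0 * y.g.eval 0 := rfl

instance : Ring (Ex K) where
  add_assoc x y z := by ext1 <;> simp [add_assoc]
  zero_add x := by ext1 <;> simp
  add_zero x := by ext1 <;> simp
  add_comm x y := by ext1 <;> simp [add_comm]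
  left_distrib x y z := by
    ext1 <;> simp only [mul_p, mul_f, mul_g, mul_h, add_p, add_f, add_g, add_h, eval_add] <;> ring
  right_distrib x y z := by
    ext1 <;> simp only [mul_p, mul_f, mul_g, mul_h, add_p, add_f, add_g, add_h, eval_add] <;> ring
  zero_mul x := by ext1 <;> simp
  mul_zero x := by ext1 <;> simp
  mul_assoc x y z := by
    ext1 <;> simp only [mul_p, mul_f, mul_g, mul_h, eval_add, eval_mul] <;> ring
  one_mul x := by ext1 <;> simp
  mul_one x := by ext1 <;> simp
  neg_add_cancel x := by ext1 <;> simp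
  sub_eq_add_neg x y := by ext1 <;> simp [sub_eq_add_neg]
  nsmul := nsmulRec
  zsmul := zsmulRec

/-- The central element `t`. -/
def t : Ex K := ⟨X, 0, 0, 0⟩
/-- The element `a`. -/
def a : Ex K := ⟨0, 1, 0, 0⟩
/-- The element `b`. -/
def b : Ex K := ⟨0, 0, 1, 0⟩

theorem central_t : Central (t : Ex K) := by
  intro r
  ext1 <;> simp [t, mul_comm]

theorem central_mul_t (r : Ex K) : Central (r * t) := by
  intro s
  ext1
  · simp [t]; ring
  · simp [t]; ring
  · simp [t]; ring
  · simp [t]

theorem centrallyEssential : CentrallyEssential (Ex K) := by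
  right
  intro r hr
  refine ⟨t, r * t, central_t, central_mul_t r, ?_, ?_, rfl⟩
  · intro h
    have := congrArg Ex.p h
    simp [t] at this
  · intro h
    apply hr
    have h1 := congrArg Ex.p h
    have h2 := congrArg Ex.f h
    have h3 := congrArg Ex.g h
    simp [t] at h1 h2 h3
    intro s
    ext1 <;> simp [h1, h2, h3, mul_comm]

theorem mem_jacobson_of_p {x : Ex K} (hx : x.p = 0) : x ∈ Ring.jacobson (Ex K) := by
  rw [← Ideal.jacobson_bot, Ideal.mem_jacobson_iff]
  intro y
  refine ⟨1 - y * x + y * x * (y * x), ?_⟩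
  rw [Ideal.mem_bot]
  ext1
  · simp [hx]
  · simp [hx]
  · simp [hx]
  · simp [hx]
    ring

theorem p_of_mem_jacobson {x : Ex K} (hx : x ∈ Ring.jacobson (Ex K)) : x.p = 0 := by
  rw [← Ideal.jacobson_bot, Ideal.mem_jacobson_iff] at hx
  obtain ⟨z, hz⟩ := hx t
  rw [Ideal.mem_bot] at hz
  have h1 := congrArg Ex.p hz
  simp [t] at h1
  have h2 : IsUnit (1 + X * x.p) := by
    refine IsUnit.of_mul_eq_one z.p ?_
    linear_combination h1
  rw [Polynomial.isUnit_iff] at h2
  obtain ⟨r, -, hr⟩ := h2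
  have h3 : X * x.p = C (r - 1) := by
    rw [C_sub, hr, C_1]; ring
  by_contra hne
  have h4 := congrArg natDegree h3
  rw [natDegree_C, natDegree_X_mul hne] at h4
  omega

theorem not_centrallyEssential : ¬ CentrallyEssential (jacobsonRing (Ex K)) := by
  have ha' : (a : Ex K) ∈ Ring.jacobson (Ex K) := mem_jacobson_of_p rfl
  have hb' : (b : Ex K) ∈ Ring.jacobson (Ex K) := mem_jacobson_of_p rfl
  have ha : (a : Ex K) ∈ jacobsonRing (Ex K) := ha'
  have hb : (b : Ex K) ∈ jacobsonRing (Ex K) := hb'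
  have hab : (a : Ex K) * b ≠ b * a := by
    intro h
    have := congrArg Ex.h h
    simp [a, b] at this
  rintro (h | h)
  · exact hab (congrArg Subtype.val (h ⟨a, ha⟩ ⟨b, hb⟩))
  · obtain ⟨x, y, hx, -, -, hy, hxy⟩ := h ⟨a, ha⟩ (fun hc =>
      hab (congrArg Subtype.val (hc ⟨b, hb⟩)))
    apply hy
    rw [← hxy, ← hx ⟨a, ha⟩]
    have hp : (x : Ex K).p = 0 := p_of_mem_jacobson x.2
    apply Subtype.ext
    show (x : Ex K) * a = 0
    ext1 <;> simp [a, hp]

end Ex

/-- There is a centrally essential ring (with identity) whose Jacobson radical, regarded as a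
ring in its own right, is not centrally essential. -/
theorem result : ∃ (R : Type) (_ : Ring R),
    CentrallyEssential R ∧ ¬ CentrallyEssential (jacobsonRing R) :=
  ⟨Ex ℚ, inferInstance, Ex.centrallyEssential, Ex.not_centrallyEssential⟩

end

end Pool.Agent.Results.MP_0b5955_al.RadicalNotCentrallyEssential
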